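import Pool.Agent.N425.KY2
import Pool.Agent.N425.KR5

/-!
# The local version of Hadwiger's conjecture when non-neighbourhoods in `N(v)` are `r`-colourable

Let `v` be a vertex of a finite graph `G` such that for every neighbour `u` of `v` the neighbours of `v`
not adjacent to `u` induce an `r`-colourable graph.  Nothing is assumed about the rest of `G`.  Suppose that
`K_{t+1}` is not a minor of `G`.  Then `χ(N[v]) ≤ t + c (r + 1) ^ 10`.  Moreover for every `E ≤ t` even
`χ(N[v]) ≤ t - E`, unless `N[v]` consists of a clique and a set that induces a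
`c (r + 1) ^ 36 (E + 1) ^ 4`-colourable graph.  Here `c` is an absolute constant.

## Outline of the proof

Let `h` be the largest `m` such that `K_m` is a minor.  We show for all finite graphs `H`, in which for
every vertex `x` the non-neighbours of `x` induce an `r`-colourable graph, that `h(H) ≥ χ(H) + E` unless `H`
is a clique plus a `c (r + 1) ^ 36 (E + 1) ^ 4`-colourable graph, and `h(H) ≥ χ(H) - c (r + 1) ^ 10`.  This is
applied to the graph induced by `N[v]`.

Put `f = 8 r (r + 1)`, `C = c (r + 1) ^ 10` and `e = f + 2 + C + E`.  The second inequality is shown by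
induction on the number `n` of vertices, with similar steps; we sketch the first one.  Suppose that no
vertex is adjacent to all others and that `n` is large.

* If all independent sets have at most `8 e (log n + 1)` vertices then every vertex has `O(log n)`
  non-neighbours, and pairing the vertices outside a maximum clique gives the clique minor.
* Otherwise let `I` be a larger independent set, `B` the set of the vertices outside `I` that are not
  adjacent to more than one eighth of `I`, and `Γ` the set of the other vertices.  By double counting `B` is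
  `f`-colourable.
* If the independent subsets of `Γ` have at most `e` vertices, then every vertex of `Γ` has at most `r e`
  non-neighbours in `Γ`.  Either `h(Γ) ≥ χ(Γ) + E + f + 1` as before, or all but a bounded number of the
  vertices of `Γ` are adjacent to all others in `Γ`.
* Otherwise let `X` be an independent subset of `Γ` with `e` vertices.  There are pairwise disjoint sets
  `T x ⊆ I ∩ N(x)`, `x ∈ X`, with at most `log n + 1` vertices such that every vertex of `Γ` has a neighbour
  in `T x`.  The sets `{x} ∪ T x` and a clique minor of `Γ - X` with at least `χ(Γ - X) - C` branch sets form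
  the clique minor.
-/

set_option autoImplicit false

namespace Pool.Agent.Results.MP_7b68b9_co.CliqueOrSurplus

open Pool.Agent.N425.KR Pool.Agent.N425.KV Pool.Agent.N425.KX Pool.Agent.N425.KY

/-- `K_m` is a minor of `G`: there are `m` pairwise disjoint vertex sets, each inducing a connected
subgraph, with an edge of `G` between any two of them. -/
def HasCliqueMinor {U : Type} (G : SimpleGraph U) (m : ℕ) : Prop :=
  ∃ B : Fin m → Set U,
    (∀ i, (G.induce (B i)).Connected) ∧
    (∀ i j, i ≠ j → Disjoint (B i) (B j)) ∧
    (∀ i j, i ≠ j → ∃ u ∈ B i, ∃ w ∈ B j, G.Adj u w)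

/-- the statement for whole graphs -/
theorem glob : ∃ c : ℕ, ∀ (r E : ℕ) (U : Type) [Finite U] (G : SimpleGraph U),
    (∀ v, (G.induce {w | w ≠ v ∧ ¬ G.Adj v w}).Colorable r) →
      ((∃ K : Set U, G.IsClique K ∧ (G.induce Kᶜ).Colorable (c * ((r + 1) ^ 36 * (E + 1) ^ 4))) ∨
        ∀ k : ℕ, ¬ G.Colorable k → HasCliqueMinor G (k + 1 + E)) ∧
      ∀ k : ℕ, ¬ G.Colorable (k + c * (r + 1) ^ 10) → HasCliqueMinor G (k + 1) := by
  classical
  obtain ⟨c, hN⟩ := dicho_poly
  refine ⟨c, ?_⟩
  intro r E U _ G h
  have := Fintype.ofFinite U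
  have hNC : NC G r := by
    intro v
    apply Pool.Agent.N425.KT.Cov.of_colorable
    have e : {u | u ∈ nn G v} = {w | w ≠ v ∧ ¬ G.Adj v w} := by
      ext u
      exact mem_nn
    rw [e]
    exact h v
  obtain ⟨h1, 𝓑, hM, hc⟩ := hN r E U G hNC Finset.univ
  refine ⟨?_, ?_⟩
  · rcases h1 with ⟨𝓑, k', hM, hc, hk'⟩ | ⟨K, -, hK, hKN⟩
    · right
      intro k hk
      apply hM.minor
      by_contra hlt
      exact hk (hc.colorable.mono (by omega))
    · refine Or.inl ⟨(K : Set U), ?_, ?_⟩
      · intro a ha b hb hab
        exact hK a ha b hb hab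
      · have h1 := Pool.Agent.N425.KT.Cov.colorable_on hKN
        have e : {u | u ∈ Finset.univ \ K} = ((K : Set U))ᶜ := by
          ext u
          simp
        rwa [e] at h1
  · intro k hk
    apply hM.minor
    by_contra hlt
    exact hk (hc.colorable.mono (by omega))

/-- a clique minor of an induced subgraph is a clique minor of the graph -/
theorem HasCliqueMinor.of_induce {V : Type} {G : SimpleGraph V} {S : Set V} {m : ℕ}
    (h : HasCliqueMinor (G.induce S) m) : HasCliqueMinor G m := by
  obtain ⟨B, h1, h2, h3⟩ := h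
  refine ⟨fun i => Subtype.val '' B i, ?_, ?_, ?_⟩
  · intro i
    let f : (G.induce S).induce (B i) →g G.induce (Subtype.val '' B i) :=
      { toFun := fun x => ⟨x.1.1, x.1, x.2, rfl⟩
        map_rel' := fun {a b} hab => hab }
    refine (h1 i).map f ?_
    rintro ⟨_, x, hx, rfl⟩
    exact ⟨⟨x, hx⟩, rfl⟩
  · intro i j hij
    exact (Set.disjoint_image_iff Subtype.val_injective).2 (h2 i j hij)
  · intro i j hij
    obtain ⟨u, hu, w, hw, huw⟩ := h3 i j hij
    exact ⟨u.1, ⟨u, hu, rfl⟩, w.1, ⟨w, hw, rfl⟩, huw⟩

/-- **Local version of Hadwiger's conjecture.**  There is a constant `c` with the following property.  Let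
`v` be a vertex of a finite graph `G` such that for every neighbour `u` of `v` the neighbours of `v`
different from `u` and not adjacent to `u` induce an `r`-colourable graph, and let `K_{t+1}` be no minor of
`G`.  Then for every `E ≤ t` the closed neighbourhood of `v` induces a `(t - E)`-colourable graph or is the
union of a clique and a set that induces a `c (r + 1) ^ 36 (E + 1) ^ 4`-colourable graph; and it always
induces a `(t + c (r + 1) ^ 10)`-colourable graph. -/
theorem result : ∃ c : ℕ, ∀ (r t : ℕ) (V : Type) [Finite V] (G : SimpleGraph V) (v : V),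
    (∀ u, G.Adj v u → (G.induce {w | G.Adj v w ∧ w ≠ u ∧ ¬ G.Adj u w}).Colorable r) →
    ¬ HasCliqueMinor G (t + 1) →
      (∀ E ≤ t, (G.induce (insert v (G.neighborSet v))).Colorable (t - E) ∨
        ∃ K ⊆ insert v (G.neighborSet v), G.IsClique K ∧
          (G.induce (insert v (G.neighborSet v) \ K)).Colorable (c * ((r + 1) ^ 36 * (E + 1) ^ 4))) ∧
      (G.induce (insert v (G.neighborSet v))).Colorable (t + c * (r + 1) ^ 10) := by
  obtain ⟨c, hc⟩ := glob
  refine ⟨c, ?_⟩
  intro r t V _ G v h hminor
  have hyp : ∀ x : ↥(insert v (G.neighborSet v)),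
      ((G.induce (insert v (G.neighborSet v))).induce
        {w | w ≠ x ∧ ¬ (G.induce (insert v (G.neighborSet v))).Adj x w}).Colorable r := by
    rintro ⟨u, hu⟩
    by_cases huv : u = v
    · subst huv
      refine ⟨SimpleGraph.Coloring.mk (fun w => ?_) (fun {a} => ?_)⟩
      · exfalso
        obtain ⟨⟨w, hw⟩, hwu, hn⟩ := w
        rcases hw with hw | hw
        · exact hwu (Subtype.ext hw)
        · exact hn hw
      · exfalso
        obtain ⟨⟨w, hw⟩, hwu, hn⟩ := a
        rcases hw with hw | hw
        · exact hwu (Subtype.ext hw)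
        · exact hn hw
    · have hvu : G.Adj v u := by
        rcases hu with h1 | h1
        · exact absurd h1 huv
        · exact h1
      obtain ⟨C⟩ := h u hvu
      have key : ∀ w : ↥{w : ↥(insert v (G.neighborSet v)) | w ≠ ⟨u, hu⟩ ∧
          ¬ (G.induce (insert v (G.neighborSet v))).Adj ⟨u, hu⟩ w},
          w.1.1 ∈ {w | G.Adj v w ∧ w ≠ u ∧ ¬ G.Adj u w} := by
        rintro ⟨⟨w, hw⟩, hwu, hn⟩
        have hn' : ¬ G.Adj u w := hn
        refine ⟨?_, fun h1 => hwu (Subtype.ext h1), hn'⟩
        rcases hw with h1 | h1
        · subst h1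
          exact absurd hvu.symm hn'
        · exact h1
      exact ⟨SimpleGraph.Coloring.mk (fun w => C ⟨w.1.1, key w⟩) (fun {a b} hab => C.valid hab)⟩
  refine ⟨?_, ?_⟩
  · intro E hE
    obtain ⟨h1, -⟩ := hc r E _ (G.induce (insert v (G.neighborSet v))) hyp
    rcases h1 with ⟨K, hK, hKc⟩ | h1
    · right
      refine ⟨Subtype.val '' K, ?_, ?_, ?_⟩
      · rintro _ ⟨x, -, rfl⟩
        exact x.2
      · rintro _ ⟨x, hx, rfl⟩ _ ⟨y, hy, rfl⟩ hxy
        exact hK hx hy (fun h2 => hxy (congrArg Subtype.val h2))
      · obtain ⟨C⟩ := hKc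
        have key : ∀ w : ↥(insert v (G.neighborSet v) \ Subtype.val '' K),
            (⟨w.1, w.2.1⟩ : ↥(insert v (G.neighborSet v))) ∈ Kᶜ :=
          fun w hw => w.2.2 ⟨_, hw, rfl⟩
        exact ⟨SimpleGraph.Coloring.mk (fun w => C ⟨⟨w.1, w.2.1⟩, key w⟩)
          (fun {a b} hab => C.valid hab)⟩
    · left
      by_contra hcol
      have h2 := h1 _ hcol
      rw [show t - E + 1 + E = t + 1 by omega] at h2
      exact hminor h2.of_induce
  · obtain ⟨-, h1⟩ := hc r 0 _ (G.induce (insert v (G.neighborSet v))) hyp
    by_contra hcol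
    exact hminor (h1 _ hcol).of_induce

end Pool.Agent.Results.MP_7b68b9_co.CliqueOrSurplus
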