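import Pool.Agent.N425.KG5

/-!
# The local version of Hadwiger's conjecture at neighbourhoods that are complements of line graphs

`result`: let `v` be a vertex of a finite graph `G` whose neighbours can be labelled by sets of one or
two points such that two neighbours of `v` are adjacent exactly when their sets are disjoint (repeated
labels are allowed).  Nothing is assumed about the rest of `G`.  If `K_{t+1}` is not a minor of `G`
then the closed neighbourhood of `v` induces a `t`-colourable graph.  In particular this holds at
every vertex of the complement of the line graph of a finite simple graph.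

## Outline of the proof

The closed neighbourhood of `v` is again a disjointness graph of sets of one or two points (label
`v` by a new point).  So it suffices to prove Hadwiger's conjecture for such graphs.  For
pairs this is an induction on the number of distinct labels (edges of a graph on the points).
Let `v` be a point of maximum degree.  The labels avoiding `v` need at least `k` colours, so by
induction they have a `K_k` minor; take one with fewest vertices.  If there is no `K_{k+1}` minor
then the star at `v` cannot be used to enlarge the model or to split one of its branch sets in two,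
and this is so restrictive that one can write down a `k`-colouring; the cases are
`deg v ≥ 4`, `3`, `2`, `≤ 1`.
-/

set_option autoImplicit false

namespace Pool.Agent.Results.MP_7b68b9_co.LineGraphComplements

open Pool.Agent.N425.KG

/-- `K_m` is a minor of `G`: there are `m` pairwise disjoint vertex sets, each inducing a connected
subgraph, with an edge of `G` between any two of them. -/
def HasCliqueMinor {U : Type} (G : SimpleGraph U) (m : ℕ) : Prop :=
  ∃ B : Fin m → Set U,
    (∀ i, (G.induce (B i)).Connected) ∧
    (∀ i j, i ≠ j → Disjoint (B i) (B j)) ∧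
    (∀ i j, i ≠ j → ∃ u ∈ B i, ∃ w ∈ B j, G.Adj u w)

/-- the case in which all sets have two elements -/
theorem pairs {U V : Type} [Finite U] [DecidableEq V] (G : SimpleGraph U) (s : U → Finset V)
    (hs : ∀ u, (s u).card = 2) (hadj : ∀ u w, G.Adj u w ↔ Disjoint (s u) (s w)) (k : ℕ)
    (hk : ¬ G.Colorable k) : HasCliqueMinor G (k + 1) := by
  classical
  have := Fintype.ofFinite U
  have hne : Nonempty U := by
    by_contra hcon
    rw [not_nonempty_iff] at hcon
    exact hk ⟨SimpleGraph.Coloring.mk (fun u => isEmptyElim u) (fun {u} => isEmptyElim u)⟩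
  set E : Finset (Finset V) := Finset.univ.image s with hE
  have hσ : ∀ e ∈ E, ∃ u, s u = e := by
    intro e he
    obtain ⟨u, -, hu⟩ := Finset.mem_image.1 he
    exact ⟨u, hu⟩
  choose! σ hσ using hσ
  have htwo : ∀ e ∈ E, e.card = 2 := by
    intro e he
    rw [← hσ e he]; exact hs _
  have hcov : ¬ Cov E k := by
    rintro ⟨P, hP1, hP2, hP3⟩
    apply hk
    have hc : ∀ u : U, ∃ C : {C // C ∈ P}, s u ∈ C.1 := by
      intro u
      obtain ⟨C, hC, hu⟩ := hP3 (s u) (Finset.mem_image_of_mem _ (Finset.mem_univ u))
      exact ⟨⟨C, hC⟩, hu⟩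
    choose c hc using hc
    have hcol : G.Colorable (Fintype.card {C // C ∈ P}) :=
      (SimpleGraph.Coloring.mk c (fun {u w} huw heq => by
        have h1 := hP2 (c u).1 (c u).2 (s u) (hc u) (s w) (heq ▸ hc w)
        exact h1 ((hadj u w).1 huw))).colorable
    rw [Fintype.card_coe] at hcol
    exact hcol.mono hP1
  obtain ⟨𝓑, hM, hcard⟩ := main E.card E k rfl htwo hcov
  let φ : Fin (k + 1) ≃ {B // B ∈ 𝓑} := (𝓑.equivFinOfCardEq hcard).symm
  have hinE : ∀ (i : Fin (k + 1)) (e : Finset V), e ∈ (φ i).1 → e ∈ E :=
    fun i e he => hM.sub _ (φ i).2 he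
  refine ⟨fun i => {u | ∃ e ∈ (φ i).1, σ e = u}, ?_, ?_, ?_⟩
  · intro i
    set C : Finset (Finset V) := (φ i).1 with hC
    have hconn := hM.conn C (φ i).2
    obtain ⟨x0, hx0⟩ := hconn.1
    let f : ∀ e, e ∈ C → ↥{u | ∃ e ∈ C, σ e = u} := fun e he => ⟨σ e, e, he, rfl⟩
    set R : Finset (Finset V) := C.filter (fun e => ∃ he : e ∈ C,
      (G.induce {u | ∃ e ∈ C, σ e = u}).Reachable (f x0 hx0) (f e he)) with hR
    have hRC : R = C := by
      by_contra hne
      obtain ⟨e, he, g, hg, hd⟩ := hconn.2 R (Finset.filter_subset _ _)
        ⟨x0, Finset.mem_filter.2 ⟨hx0, hx0, SimpleGraph.Reachable.refl _⟩⟩ hne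
      obtain ⟨heC, heC', hreach⟩ := Finset.mem_filter.1 he
      rw [Finset.mem_sdiff] at hg
      apply hg.2
      refine Finset.mem_filter.2 ⟨hg.1, hg.1, hreach.trans (SimpleGraph.Adj.reachable ?_)⟩
      rw [SimpleGraph.comap_adj]
      show G.Adj (σ e) (σ g)
      rw [hadj, hσ e (hinE i e heC), hσ g (hinE i g hg.1)]
      exact hd
    have hall : ∀ e (he : e ∈ C),
        (G.induce {u | ∃ e ∈ C, σ e = u}).Reachable (f x0 hx0) (f e he) := by
      intro e he
      have h1 : e ∈ R := by rw [hRC]; exact he
      obtain ⟨-, he', hr⟩ := Finset.mem_filter.1 h1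
      exact hr
    have hall' : ∀ y : ↥{u | ∃ e ∈ C, σ e = u},
        (G.induce {u | ∃ e ∈ C, σ e = u}).Reachable (f x0 hx0) y := by
      rintro ⟨y, e, he, rfl⟩
      exact hall e he
    exact { preconnected := fun y z => (hall' y).symm.trans (hall' z), nonempty := ⟨f x0 hx0⟩ }
  · intro i j hij
    rw [Set.disjoint_left]
    rintro u ⟨e, he, rfl⟩ ⟨g, hg, hge⟩
    have h1 : e = g := by
      rw [← hσ e (hinE i e he), ← hσ g (hinE j g hg), hge]
    subst h1
    have h2 : (φ i).1 ≠ (φ j).1 := by
      intro h'
      exact hij (φ.injective (Subtype.ext h'))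
    exact Finset.disjoint_left.1 (hM.disj _ (φ i).2 _ (φ j).2 h2) he hg
  · intro i j hij
    have h2 : (φ i).1 ≠ (φ j).1 := by
      intro h'
      exact hij (φ.injective (Subtype.ext h'))
    obtain ⟨e, he, g, hg, hd⟩ := hM.touch _ (φ i).2 _ (φ j).2 h2
    refine ⟨σ e, ⟨e, he, rfl⟩, σ g, ⟨g, hg, rfl⟩, ?_⟩
    rw [hadj, hσ e (hinE i e he), hσ g (hinE j g hg)]
    exact hd

/-- sets of one or two elements: replace `{x}` by a pendant edge at `x` -/
theorem sets {U V : Type} [Finite U] (G : SimpleGraph U) (s : U → Finset V)
    (hs : ∀ u, (s u).card = 1 ∨ (s u).card = 2)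
    (hadj : ∀ u w, G.Adj u w ↔ Disjoint (s u) (s w)) (k : ℕ)
    (hk : ¬ G.Colorable k) : HasCliqueMinor G (k + 1) := by
  classical
  refine pairs G (fun u => (s u).disjSum (if (s u).card = 1 then s u else ∅)) ?_ ?_ k hk
  · intro u
    simp only [Finset.card_disjSum]
    rcases hs u with h1 | h1
    · rw [if_pos h1, h1]
    · rw [if_neg (by omega), h1]; simp
  · intro u w
    rw [hadj, Finset.disjoint_left, Finset.disjoint_left]
    constructor
    · intro h1 y hy hy'
      rcases y with x | x
      · rw [Finset.inl_mem_disjSum] at hy hy'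
        exact h1 hy hy'
      · rw [Finset.inr_mem_disjSum] at hy hy'
        have e1 : x ∈ s u := by
          split_ifs at hy with h2
          · exact hy
          · simp at hy
        have e2 : x ∈ s w := by
          split_ifs at hy' with h2
          · exact hy'
          · simp at hy'
        exact h1 e1 e2
    · intro h1 x hx hx'
      exact h1 (a := Sum.inl x) (Finset.inl_mem_disjSum.2 hx) (Finset.inl_mem_disjSum.2 hx')

/-- a clique minor of an induced subgraph is a clique minor of the graph -/
theorem HasCliqueMinor.of_induce {V : Type} {G : SimpleGraph V} {S : Set V} {m : ℕ}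
    (h : HasCliqueMinor (G.induce S) m) : HasCliqueMinor G m := by
  obtain ⟨B, h1, h2, h3⟩ := h
  refine ⟨fun i => Subtype.val '' B i, ?_, ?_, ?_⟩
  · intro i
    let f : (G.induce S).induce (B i) →g G.induce (Subtype.val '' B i) :=
      { toFun := fun x => ⟨x.1.1, x.1, x.2, rfl⟩
        map_rel' := fun {a b} hab => hab }
    refine (h1 i).map f ?_
    rintro ⟨_, x, hx, rfl⟩
    exact ⟨⟨x, hx⟩, rfl⟩
  · intro i j hij
    exact (Set.disjoint_image_iff Subtype.val_injective).2 (h2 i j hij)
  · intro i j hij
    obtain ⟨u, hu, w, hw, huw⟩ := h3 i j hij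
    exact ⟨u.1, ⟨u, hu, rfl⟩, w.1, ⟨w, hw, rfl⟩, huw⟩

theorem at_vertex {V P : Type} [Finite V] (G : SimpleGraph V) (v : V) (s : V → Finset P)
    (hs : ∀ u, G.Adj v u → (s u).card = 1 ∨ (s u).card = 2)
    (hadj : ∀ u w, G.Adj v u → G.Adj v w → (G.Adj u w ↔ Disjoint (s u) (s w)))
    (t : ℕ) (hminor : ¬ HasCliqueMinor G (t + 1)) :
    (G.induce (insert v (G.neighborSet v))).Colorable t := by
  classical
  by_contra hcol
  apply hminor
  apply HasCliqueMinor.of_induce (S := insert v (G.neighborSet v))
  refine sets (G.induce (insert v (G.neighborSet v)))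
    (fun u => if u.1 = v then {none} else (s u.1).map Function.Embedding.some) ?_ ?_ t hcol
  · rintro ⟨u, hu⟩
    by_cases huv : u = v
    · left; simp [huv]
    · simp only [if_neg huv, Finset.card_map]
      rcases hu with h | h
      · exact absurd h huv
      · exact hs u h
  · rintro ⟨u, hu⟩ ⟨w, hw⟩
    have e1 : (G.induce (insert v (G.neighborSet v))).Adj ⟨u, hu⟩ ⟨w, hw⟩ ↔ G.Adj u w := Iff.rfl
    rw [e1]
    by_cases huv : u = v
    · by_cases hwv : w = v
      · subst huv; subst hwv
        simp
      · have hvw : G.Adj v w := by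
          rcases hw with h | h
          · exact absurd h hwv
          · exact h
        subst huv
        simp only [if_true, if_neg hwv]
        refine iff_of_true hvw ?_
        rw [Finset.disjoint_left]
        intro x hx hx'
        rw [Finset.mem_singleton] at hx
        subst hx
        simp at hx'
    · have hvu : G.Adj v u := by
        rcases hu with h | h
        · exact absurd h huv
        · exact h
      by_cases hwv : w = v
      · subst hwv
        simp only [if_true, if_neg huv]
        refine iff_of_true hvu.symm ?_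
        rw [Finset.disjoint_right]
        intro x hx hx'
        rw [Finset.mem_singleton] at hx
        subst hx
        simp at hx'
      · have hvw : G.Adj v w := by
          rcases hw with h | h
          · exact absurd h hwv
          · exact h
        simp only [if_neg huv, if_neg hwv]
        rw [hadj u w hvu hvw, Finset.disjoint_map]

/-- **The local version of Hadwiger's conjecture at neighbourhoods that are complements of line
graphs.**
(1) Let `G` be a finite graph, `v` a vertex of `G`, and let every neighbour `u` of `v` be given a set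
`s u` of one or two points, such that two neighbours of `v` are adjacent exactly when their sets are
disjoint.  If `K_{t+1}` is not a minor of `G` then `v` together with its neighbours induces a
`t`-colourable graph.
(2) In particular, for every finite simple graph `H`, if `K_{t+1}` is not a minor of the complement of
the line graph of `H`, then for every vertex `v` of this graph `v` together with its neighbours induces
a `t`-colourable graph. -/
theorem result :
    (∀ (V P : Type) [Finite V] (G : SimpleGraph V) (v : V) (s : V → Finset P),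
      (∀ u, G.Adj v u → (s u).card = 1 ∨ (s u).card = 2) →
      (∀ u w, G.Adj v u → G.Adj v w → (G.Adj u w ↔ Disjoint (s u) (s w))) →
      ∀ t : ℕ, ¬ HasCliqueMinor G (t + 1) →
        (G.induce (insert v (G.neighborSet v))).Colorable t) ∧
    (∀ (V : Type) [Finite V] (H : SimpleGraph V) (t : ℕ),
      ¬ HasCliqueMinor (H.lineGraph)ᶜ (t + 1) →
        ∀ v, ((H.lineGraph)ᶜ.induce (insert v ((H.lineGraph)ᶜ.neighborSet v))).Colorable t) := by
  refine ⟨fun V P _ G v s hs hadj t hm => at_vertex G v s hs hadj t hm, ?_⟩
  intro V _ H t hm v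
  classical
  refine at_vertex (H.lineGraph)ᶜ v (fun e => e.1.toFinset) ?_ ?_ t hm
  · intro e _
    right
    exact Sym2.card_toFinset_of_not_isDiag _ (H.not_isDiag_of_mem_edgeSet e.2)
  · intro e f _ _
    rw [SimpleGraph.compl_adj, SimpleGraph.lineGraph_adj_iff_exists, Finset.disjoint_left]
    constructor
    · rintro ⟨hne, h1⟩ x hx hx'
      rw [Sym2.mem_toFinset] at hx hx'
      exact h1 ⟨hne, x, hx, hx'⟩
    · intro h1
      have h2 : ∀ x, x ∈ (e.1 : Sym2 V) → x ∉ (f.1 : Sym2 V) := by
        intro x hx hx'
        exact h1 (Sym2.mem_toFinset.2 hx) (Sym2.mem_toFinset.2 hx')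
      refine ⟨?_, ?_⟩
      · rintro rfl
        obtain ⟨x, hx⟩ : ∃ x, x ∈ (e.1 : Sym2 V) := ⟨_, Sym2.out_fst_mem e.1⟩
        exact h2 x hx hx
      · rintro ⟨-, x, hx, hx'⟩
        exact h2 x hx hx'

end Pool.Agent.Results.MP_7b68b9_co.LineGraphComplements
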